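import Pool.Agent.GBS.StmtsB
import Pool.Agent.Helper23_MVS.BR3

set_option autoImplicit false

noncomputable section

open scoped ContDiff Topology RealInnerProductSpace
open Set MeasureTheory Matrix

namespace Pool.Agent.GBS.H32

open Pool.Agent.RF Pool.Agent.MVS Pool.Agent.GBS Pool.Agent.SecondKind Pool.Agent.MinVolSphere

/-- the curvature components of the round metric -/
def rk (a b c d : Fin 4) : ℝ :=
  (if b = c then 1 else 0) * (if a = d then 1 else 0) -
    (if a = c then 1 else 0) * (if b = d then 1 else 0)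

theorem e4_rk : E4 rk = 96 := by
  unfold E4 kk pr ps rk
  simp [Fin.sum_univ_three]
  norm_num

theorem norm_vc {x : Fin 5 → ℝ} (hx : OnSphere x) : ‖vc x‖ = 1 := by
  have h1 : ‖vc x‖ ^ 2 = 1 := by
    rw [← real_inner_self_eq_norm_sq, Pool.Agent.MVS.H23.inner_vc]
    have h2 : ∑ i, x i ^ 2 = 1 := hx
    rw [← h2]
    exact Finset.sum_congr rfl fun i _ => by ring
  have h3 := norm_nonneg (vc x)
  nlinarith

theorem cyl2_round : Cyl2 Pool.Agent.MVS.H38.rg (Pool.Agent.MVS.H38.rG (Fin 5)) := by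
  refine ⟨Pool.Agent.MVS.H38.rG_cyl, ?_⟩
  intro x v w hv hw
  unfold Pool.Agent.MVS.H38.rG Pool.Agent.MVS.H38.rg
  rw [norm_vc hv.1]
  simp only [one_pow, inv_one, one_smul, del_apply]
  rw [Pool.Agent.MVS.H23.inner_vc]

theorem rde (hfra : FraStmt) (hfrm : FrmStmt) (hrdk : RdkStmt) : RdeStmt := by
  have h1 : ∀ x ∈ Om (Fin 5), eul (Pool.Agent.MVS.H38.rG (Fin 5)) x =
      96 * sd (Pool.Agent.MVS.H38.rG (Fin 5) x) := by
    intro x hx
    obtain ⟨F, hF⟩ := hfrm _ x Pool.Agent.MVS.H38.rG_cyl hx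
    rw [hfra _ x F Pool.Agent.MVS.H38.rG_cyl hx hF]
    have hK : Kf (Pool.Agent.MVS.H38.rG (Fin 5)) x F = rk := by
      funext a b c d
      exact hrdk x hx F hF a b c d
    rw [hK, e4_rk]
    ring
  refine ⟨h1, ?_⟩
  have hms : MeasurableSet (slab (Fin 5)) := by
    unfold slab
    exact (measurableSet_lt measurable_const measurable_norm).inter
      (measurableSet_lt measurable_norm measurable_const)
  have h2 : ∫ x in slab (Fin 5), eul (Pool.Agent.MVS.H38.rG (Fin 5)) x =
      ∫ x in slab (Fin 5), 96 * sd (Pool.Agent.MVS.H38.rG (Fin 5) x) := by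
    refine setIntegral_congr_fun hms fun x hx => ?_
    refine h1 x ?_
    show x ≠ 0
    rw [← norm_pos_iff]
    exact lt_trans one_pos hx.1
  rw [h2, integral_const_mul, Pool.Agent.MVS.H23.br3 _ _ Pool.Agent.MVS.H38.rg_metric
    Pool.Agent.MVS.H38.rG_cyl cyl2_round.2, Pool.Agent.MVS.H38.rg_vol]
  ring

end Pool.Agent.GBS.H32
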