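import Pool.Agent.Helper32_GBS.RDE

set_option autoImplicit false

noncomputable section

open scoped ContDiff Topology RealInnerProductSpace
open Set MeasureTheory Matrix

namespace Pool.Agent.GBS.H32

open Pool.Agent.RF Pool.Agent.MVS Pool.Agent.GBS Pool.Agent.SecondKind Pool.Agent.MinVolSphere

theorem area2_frame {n : ℕ} {h : Coord n} {y : Fin n → ℝ} {e : Fin n → Fin n → ℝ}
    (he : IsFrame h y e) (i j : Fin n) :
    area2 h y (e i) (e j) = 1 - if i = j then 1 else 0 := by
  unfold area2
  rw [he i i, he j j, he i j]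
  split_ifs <;> simp_all

theorem rdo (hbfo : BfoStmt) (hrdk : RdkStmt) : RdoStmt := by
  refine ⟨?_, ?_, ?_⟩
  · intro U ψ hψ y hy a b
    rw [one_mul, (Pool.Agent.MVS.H38.sec_eq hψ hy a b).1]
  · intro U ψ hψ y hy e he
    have h1 : ∀ i j, riemV (comp Pool.Agent.MVS.H38.rg ψ) y (e i) (e j) (e j) (e i) =
        1 - if i = j then 1 else 0 := by
      intro i j
      rw [(Pool.Agent.MVS.H38.sec_eq hψ hy (e i) (e j)).1, area2_frame he]
    simp only [h1]
    simp [Fin.sum_univ_four]
    norm_num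
  · intro U ψ hψ y hy e he
    obtain ⟨h1, -, h3⟩ := hbfo _ _ cyl2_round U ψ hψ y hy
    have hOm : vc (ψ y) ∈ Om (Fin 5) := by
      show vc (ψ y) ≠ 0
      rw [← norm_pos_iff, norm_vc (hψ.sphere y hy)]
      exact one_pos
    have hK : ∀ a b c d, riemV (comp Pool.Agent.MVS.H38.rg ψ) y (e a) (e b) (e c) (e d) =
        rk a b c d := by
      intro a b c d
      rw [h1]
      exact hrdk _ hOm _ (h3 e he) a b c d
    unfold pontF
    simp only [hK]
    unfold rk
    simp [Fin.sum_univ_four]

end Pool.Agent.GBS.H32
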